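import Pool.Agent.Helper83.PE.Main

/-!
# The boundary of the zero entropy locus of the real Henon family at the conservative point `(b, c) = (1, 1)`

`f (x, y) = (x^2 + c - b y, x)`.  All conservative maps `b = 1`, `c < 1` have positive entropy, uniformly in a neighbourhood of the
parameter; `(1, 1)` is the only boundary point of the zero entropy locus on the line `b = 1`; it is a cut point of the boundary,
with two branches at exponentially small distance, and the boundary is not a `C^1` curve there.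
-/

set_option autoImplicit false

namespace Pool.Agent.Results.MP_b39980_an.ConservativeCusp

open Set Topology

/-- The real Henon map `f_{c,b}`. -/
def henon (b c : ℝ) (p : ℝ × ℝ) : ℝ × ℝ := (p.1 ^ 2 + c - b * p.2, p.1)

/-- `x` is the sequence of first coordinates of a full orbit of `f_{c,b}`. -/
def IsOrbit (b c : ℝ) (x : ℤ → ℝ) : Prop := ∀ n : ℤ, x (n + 1) = x n ^ 2 + c - b * x (n - 1)

/-- The set `K_{c,b}` of points with bounded full orbit. -/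
def K (b c : ℝ) : Set (ℝ × ℝ) :=
  {p | ∃ x : ℤ → ℝ, IsOrbit b c x ∧ (∃ M : ℝ, ∀ n : ℤ, |x n| ≤ M) ∧ x 0 = p.1 ∧ x (-1) = p.2}

/-- The zero entropy locus: the topological entropy (Bowen, by covers) of `f_{c,b}` on `K_{c,b}` is zero; it is `⊥` if
`K_{c,b}` is empty. -/
def E0 : Set (ℝ × ℝ) := {q | Dynamics.coverEntropy (henon q.1 q.2) (K q.1 q.2) ≤ 0}

/-- Near `q` the set `S` is contained in an embedded `C^1` curve through `q`. -/
def OnC1Curve (S : Set (ℝ × ℝ)) (q : ℝ × ℝ) : Prop :=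
  ∃ (γ : ℝ → ℝ × ℝ) (t : ℝ), ContDiffAt ℝ 1 γ t ∧ deriv γ t ≠ 0 ∧ γ t = q ∧ ∀ V ∈ 𝓝 t, ∃ U ∈ 𝓝 q, S ∩ U ⊆ γ '' V

theorem result :
    (∀ c : ℝ, ((1, c) ∈ E0 ↔ 1 ≤ c) ∧ (c < 1 → (1, c) ∈ interior E0ᶜ) ∧ ((1, c) ∈ frontier E0 ↔ c = 1)) ∧
    ¬IsPreconnected (frontier E0 \ {(1, 1)}) ∧
    (∃ a ε0 : ℝ, 0 < a ∧ 0 < ε0 ∧ ∀ ε ∈ Ioo 0 ε0, ∃ b1 b2 : ℝ, b1 < 1 ∧ 1 < b2 ∧
      (b1, 1 - ε) ∈ frontier E0 ∧ (b2, 1 - ε) ∈ frontier E0 ∧
      1 - b1 ≤ Real.exp (-(a / ε ^ (1 / 4 : ℝ))) ∧ b2 - 1 ≤ Real.exp (-(a / ε ^ (1 / 4 : ℝ)))) ∧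
    ¬OnC1Curve (frontier E0) (1, 1) :=
  Helper83.PE.main

end Pool.Agent.Results.MP_b39980_an.ConservativeCusp
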