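import Pool.Agent.Helper5.GB.Main

/-!
# The structure of the boundary of the zero entropy locus of the real Henon family

`f (x, y) = (x^2 + c - b y, x)`.  The boundary of the zero entropy locus has a principal component: it contains the two conservative
points `(1, 1)` and `(-1, 0)`, meets every vertical line, separates the parameters on or above the saddle-node parabola from the
parameters of very negative `c`, and crosses every parabola `c = -τ (1 + b)^2`, `τ > -1/4`.  If the boundary is an arc then it is a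
properly embedded line.  The periods of its maps are not bounded near the conservative points, and it is not piecewise analytic.
-/

set_option autoImplicit false

namespace Pool.Agent.Results.MP_b39980_an.PrincipalComponent

open Set Topology Filter

/-- The real Henon map `f_{c,b}`. -/
def henon (b c : ℝ) (p : ℝ × ℝ) : ℝ × ℝ := (p.1 ^ 2 + c - b * p.2, p.1)

/-- `x` is the sequence of first coordinates of a full orbit of `f_{c,b}`. -/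
def IsOrbit (b c : ℝ) (x : ℤ → ℝ) : Prop := ∀ n : ℤ, x (n + 1) = x n ^ 2 + c - b * x (n - 1)

/-- The set `K_{c,b}` of points with bounded full orbit. -/
def K (b c : ℝ) : Set (ℝ × ℝ) :=
  {p | ∃ x : ℤ → ℝ, IsOrbit b c x ∧ (∃ M : ℝ, ∀ n : ℤ, |x n| ≤ M) ∧ x 0 = p.1 ∧ x (-1) = p.2}

/-- The zero entropy locus: the topological entropy (Bowen, by covers) of `f_{c,b}` on `K_{c,b}` is zero; it is `⊥` if
`K_{c,b}` is empty. -/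
def E0 : Set (ℝ × ℝ) := {q | Dynamics.coverEntropy (henon q.1 q.2) (K q.1 q.2) ≤ 0}

/-- The component of the boundary of the zero entropy locus which contains `(1, 1)`. -/
def G : Set (ℝ × ℝ) := connectedComponentIn (frontier E0) (1, 1)

theorem result :
    ((-1, 0) ∈ G ∧ (∀ b : ℝ, ∃ c : ℝ, (b, c) ∈ G) ∧
      (∀ C : Set (ℝ × ℝ), IsPreconnected C → (∃ q ∈ C, (1 + q.1) ^ 2 / 4 ≤ q.2) → (∃ q ∈ C, q.2 ≤ -(3 * (1 + |q.1|) ^ 2)) →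
        (C ∩ G).Nonempty) ∧
      (∀ q ∈ frontier E0, -(3 * (1 + |q.1|) ^ 2) ≤ q.2 ∧ q.2 ≤ (1 + q.1) ^ 2 / 4) ∧
      ¬IsPreconnected (G \ {(1, 1)}) ∧ ¬IsPreconnected (G \ {(-1, 0)}) ∧ ¬IsPreconnected (frontier E0 \ {(-1, 0)})) ∧
    (∃ Γ ⊆ G, IsCompact Γ ∧ IsPreconnected Γ ∧ (-1, 0) ∈ Γ ∧ (1, 1) ∈ Γ ∧ (∀ q ∈ Γ, |q.1| ≤ 1) ∧
      ∀ τ > (-1 / 4 : ℝ), ∃ b ∈ Ioo (-1 : ℝ) 1, (b, -(τ * (1 + b) ^ 2)) ∈ Γ) ∧
    (∃ a ε0 : ℝ, 0 < a ∧ 0 < ε0 ∧ ∀ ε ∈ Ioo 0 ε0,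
      (∃ b1 b2 : ℝ, b1 < 1 ∧ 1 < b2 ∧ (b1, 1 - ε) ∈ G ∧ (b2, 1 - ε) ∈ G ∧
        1 - b1 ≤ Real.exp (-(a / ε ^ (1 / 4 : ℝ))) ∧ b2 - 1 ≤ Real.exp (-(a / ε ^ (1 / 4 : ℝ)))) ∧
      ∃ b1 b2 : ℝ, b1 < -1 ∧ -1 < b2 ∧ (b1, -ε) ∈ G ∧ (b2, -ε) ∈ G ∧
        -1 - b1 ≤ Real.exp (-(a / Real.sqrt ε)) ∧ b2 + 1 ≤ Real.exp (-(a / Real.sqrt ε))) ∧
    (∀ I : Set ℝ, I.OrdConnected → Nonempty (I ≃ₜ frontier E0) →
      ∃ e : ℝ ≃ₜ frontier E0, (e 0 : ℝ × ℝ) = (-1, 0) ∧ (e 1 : ℝ × ℝ) = (1, 1) ∧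
        (∀ t, (e t : ℝ × ℝ).1 < -1 ↔ t < 0) ∧ (∀ t, 1 < (e t : ℝ × ℝ).1 ↔ 1 < t) ∧
        Tendsto (fun t => (e t : ℝ × ℝ).1) atTop atTop ∧ Tendsto (fun t => (e t : ℝ × ℝ).1) atBot atBot) ∧
    (∀ N : ℕ, ∃ δ > 0,
      (∀ (q : ℝ × ℝ) (x : ℤ → ℝ) (m : ℕ), 1 ≤ m → m ≤ N → IsOrbit q.1 q.2 x → (∀ n, x (n + m) = x n) →
        (dist q (1, 1) < δ → ∀ n, x (n + 1) = x n) ∧ (dist q (-1, 0) < δ → ∀ n, x (n + 2) = x n)) ∧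
      ∀ q ∈ frontier E0, dist q (-1, 0) < δ → q ≠ (-1, 0) →
        ∃ x : ℤ → ℝ, IsOrbit q.1 q.2 x ∧ (∀ n, x (n + 2) = x n) ∧ ∀ n, x (n + 1) ≠ x n) ∧
    (∀ (ι : Type) (γ : ι → ℝ → ℝ × ℝ) (α β : ι → ℝ), (∀ i, AnalyticOnNhd ℝ (γ i) (Icc (α i) (β i))) →
      LocallyFinite (fun i => γ i '' Icc (α i) (β i)) → frontier E0 ≠ ⋃ i, γ i '' Icc (α i) (β i)) ∧
    (∀ c : ℝ, ((-1, c) ∈ E0 ↔ 0 ≤ c) ∧ (c < 0 → (-1, c) ∈ interior E0ᶜ)) ∧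
    ∀ η > 0, ∃ δ > 0, ∀ q ∈ frontier E0, |(|q.1| - 1)| < δ → dist q (1, 1) < η ∨ dist q (-1, 0) < η :=
  Pool.Agent.Helper5.GB.main

end Pool.Agent.Results.MP_b39980_an.PrincipalComponent
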