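import Pool.Agent.Helper83.TH.Main

/-!
# The zero entropy locus of the real Henon family at the conservative point `(b, c) = (-1, 0)`

`f (x, y) = (x^2 + c - b y, x)`.  In a whole neighbourhood of the orientation reversing conservative parameter `(-1, 0)` all maps outside
an exponentially thin horn around the half-line `b = -1`, `c < 0` have zero entropy; the boundary of the zero entropy locus lies in this
horn, has a branch on each side of the half-line, and is not on a `C^1` curve.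
-/

set_option autoImplicit false

namespace Pool.Agent.Results.MP_b39980_an.SecondHorn

open Set Topology

/-- The real Henon map `f_{c,b}`. -/
def henon (b c : ℝ) (p : ℝ × ℝ) : ℝ × ℝ := (p.1 ^ 2 + c - b * p.2, p.1)

/-- `x` is the sequence of first coordinates of a full orbit of `f_{c,b}`. -/
def IsOrbit (b c : ℝ) (x : ℤ → ℝ) : Prop := ∀ n : ℤ, x (n + 1) = x n ^ 2 + c - b * x (n - 1)

/-- The set `K_{c,b}` of points with bounded full orbit. -/
def K (b c : ℝ) : Set (ℝ × ℝ) :=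
  {p | ∃ x : ℤ → ℝ, IsOrbit b c x ∧ (∃ M : ℝ, ∀ n : ℤ, |x n| ≤ M) ∧ x 0 = p.1 ∧ x (-1) = p.2}

/-- The zero entropy locus: the topological entropy (Bowen, by covers) of `f_{c,b}` on `K_{c,b}` is zero; it is `⊥` if
`K_{c,b}` is empty. -/
def E0 : Set (ℝ × ℝ) := {q | Dynamics.coverEntropy (henon q.1 q.2) (K q.1 q.2) ≤ 0}

/-- Near `q` the set `S` is contained in an embedded `C^1` curve through `q`. -/
def OnC1Curve (S : Set (ℝ × ℝ)) (q : ℝ × ℝ) : Prop :=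
  ∃ (γ : ℝ → ℝ × ℝ) (t : ℝ), ContDiffAt ℝ 1 γ t ∧ deriv γ t ≠ 0 ∧ γ t = q ∧ ∀ V ∈ 𝓝 t, ∃ U ∈ 𝓝 q, S ∩ U ⊆ γ '' V

theorem result :
    (∃ a d : ℝ, 0 < a ∧ 0 < d ∧
      (∀ b c : ℝ, |b + 1| < d → |c| < d → (0 ≤ c ∨ Real.exp (-(a / Real.sqrt (-c))) ≤ |b + 1|) → (b, c) ∈ E0) ∧
      (∀ q ∈ frontier E0, |q.1 + 1| < d → |q.2| < d →
        q = (-1, 0) ∨ (q.2 < 0 ∧ |q.1 + 1| ≤ Real.exp (-(a / Real.sqrt (-q.2))))) ∧
      (∀ ε ∈ Ioo 0 d, ∃ b1 b2 : ℝ, b1 < -1 ∧ -1 < b2 ∧ (b1, -ε) ∈ frontier E0 ∧ (b2, -ε) ∈ frontier E0 ∧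
        -1 - b1 ≤ Real.exp (-(a / Real.sqrt ε)) ∧ b2 + 1 ≤ Real.exp (-(a / Real.sqrt ε)))) ∧
    ¬OnC1Curve (frontier E0) (-1, 0) :=
  Helper83.TH.main

end Pool.Agent.Results.MP_b39980_an.SecondHorn
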