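import Pool.Agent.Helper85.HN.Main

/-!
# The zero entropy locus of the real Henon family near the saddle-node parabola

`f (x, y) = (x^2 + c - b y, x)`.  Near the conservative point `(b, c) = (1, 1)` the boundary of the zero entropy locus lies
in an exponentially thin horn around the line `b = 1`; the boundary meets the parabola `c = (1+b)^2/4` at most at the two
conservative points `(1, 1)` and `(-1, 0)`.
-/

set_option autoImplicit false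

namespace Pool.Agent.Results.MP_b39980_an.ThinHorn

/-- The real Henon map `f_{c,b}`. -/
def henon (b c : ℝ) (p : ℝ × ℝ) : ℝ × ℝ := (p.1 ^ 2 + c - b * p.2, p.1)

/-- `x` is the sequence of first coordinates of a full orbit of `f_{c,b}`. -/
def IsOrbit (b c : ℝ) (x : ℤ → ℝ) : Prop := ∀ n : ℤ, x (n + 1) = x n ^ 2 + c - b * x (n - 1)

/-- The set `K_{c,b}` of points with bounded full orbit. -/
def K (b c : ℝ) : Set (ℝ × ℝ) :=
  {p | ∃ x : ℤ → ℝ, IsOrbit b c x ∧ (∃ M : ℝ, ∀ n : ℤ, |x n| ≤ M) ∧ x 0 = p.1 ∧ x (-1) = p.2}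

/-- The zero entropy locus: the topological entropy (Bowen, by covers) of `f_{c,b}` on `K_{c,b}` is zero; it is `⊥` if
`K_{c,b}` is empty. -/
def E0 : Set (ℝ × ℝ) := {q | Dynamics.coverEntropy (henon q.1 q.2) (K q.1 q.2) ≤ 0}

theorem result :
    (∀ q ∈ frontier E0, q.2 ≤ (1 + q.1) ^ 2 / 4 ∧ (q.2 = (1 + q.1) ^ 2 / 4 → q = (1, 1) ∨ q = (-1, 0))) ∧
    (∀ q : ℝ × ℝ, (1 + q.1) ^ 2 / 4 ≤ q.2 → q ∈ E0) ∧
    ∃ a δ : ℝ, 0 < a ∧ 0 < δ ∧
      (∀ b c : ℝ, |b - 1| < δ → (1 + b) ^ 2 / 4 - δ < c → c < (1 + b) ^ 2 / 4 →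
        Real.exp (-(a / ((1 + b) ^ 2 / 4 - c) ^ (1 / 4 : ℝ))) ≤ |b - 1| → (b, c) ∈ E0) ∧
      ∀ q ∈ frontier E0, |q.1 - 1| < δ → (1 + q.1) ^ 2 / 4 - δ < q.2 → q.2 < (1 + q.1) ^ 2 / 4 →
        |q.1 - 1| ≤ Real.exp (-(a / ((1 + q.1) ^ 2 / 4 - q.2) ^ (1 / 4 : ℝ))) :=
  Helper85.HN.main

end Pool.Agent.Results.MP_b39980_an.ThinHorn
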